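import Mathlib

/-!
# A multiplicative relation between the numbers `t! / t ^ t`

With `f x = Γ(1 + x) x ^ (-x)`, so that `f t = t! / t ^ t` for an integer `t ≥ 2`: there are two disjoint finite
sets of integers `≥ 2`, with `7` and `9` elements, over which the products of `f` are equal.
-/

set_option autoImplicit false

namespace Pool.Agent.Results.MP_f92aba_nt.Counterexample

/-- The function `f(x) = Γ(1 + x) x ^ (-x)`. -/
noncomputable def f (x : ℝ) : ℝ := Real.Gamma (1 + x) * x ^ (-x)

lemma f_natCast (t : ℕ) : f (t : ℝ) = (((t.factorial : ℚ) / (t : ℚ) ^ t : ℚ) : ℝ) := by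
  unfold f
  rw [add_comm, Real.Gamma_nat_eq_factorial, Real.rpow_neg (Nat.cast_nonneg t), Real.rpow_natCast]
  push_cast
  rw [div_eq_mul_inv]

/-- There are two disjoint sets `T` and `S` of integers `≥ 2`, with `7` and `9` elements, such that the product
of `f(t) = t! / t ^ t` over `t ∈ T` is equal to the product of `f(u)` over `u ∈ S`. -/
theorem result : ∃ T S : Finset ℕ, (∀ t ∈ T, 2 ≤ t) ∧ (∀ u ∈ S, 2 ≤ u) ∧ Disjoint T S ∧
    T.card = 7 ∧ S.card = 9 ∧ ∏ t ∈ T, f (t : ℝ) = ∏ u ∈ S, f (u : ℝ) := by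
  refine ⟨{4, 10, 12, 15, 18, 21, 32}, {3, 5, 6, 7, 8, 14, 16, 20, 36}, by decide, by decide, by decide,
    by decide, by decide, ?_⟩
  simp only [f_natCast]
  rw [← Rat.cast_prod, ← Rat.cast_prod]
  congr 1
  simp only [Finset.prod_insert, Finset.prod_singleton, Finset.mem_insert, Finset.mem_singleton,
    Nat.reduceEqDiff, not_false_eq_true, or_self, Nat.cast_ofNat]
  norm_num [Nat.factorial]

end Pool.Agent.Results.MP_f92aba_nt.Counterexample
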